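import Mathlib

/-!
A small integer multiple of a vector in the rational span of short integer vectors lies in their
integer span (Gram determinant).
-/

set_option autoImplicit false

namespace Pool.Agent.FS.RankDrop

open Finset Matrix

theorem small_mul {ι : Type} [Fintype ι] {s : ℕ} (a : Fin s → ι → ℤ) (e : ι → ℤ) (c : Fin s → ℤ)
    (j : ℤ) (hj : j ≠ 0) (h : ∀ q, ∑ i, c i * a i q = j * e q) (M : ℤ) (M1 : 1 ≤ M)
    (hM : ∀ i l, |∑ q, a i q * a l q| ≤ M) :
    ∃ D : ℤ, D ≠ 0 ∧ |D| ≤ (Fintype.card ι).factorial * M ^ Fintype.card ι ∧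
      ∀ (p : ℤ) (w : ι → ℤ), (∀ i, p ∣ ∑ q, a i q * w q) → p ∣ D * ∑ q, e q * w q := by
  classical
  obtain ⟨κ, f, -, hsp, li⟩ := exists_linearIndependent' ℚ (fun i q => (a i q : ℚ))
  have : Finite κ := li.finite
  have : Fintype κ := Fintype.ofFinite κ
  have hc : Fintype.card κ ≤ Fintype.card ι := by
    simpa using li.fintype_card_le_finrank
  set A : Matrix κ ι ℤ := Matrix.of fun l q => a (f l) q with hA
  have hD : (A * Aᵀ).det ≠ 0 := by
    intro h0
    obtain ⟨x, x0, hx⟩ := exists_mulVec_eq_zero_iff.2 h0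
    rw [← conjTranspose_eq_transpose_of_trivial, self_mul_conjTranspose_mulVec_eq_zero,
      conjTranspose_eq_transpose_of_trivial] at hx
    apply x0
    funext l
    have := Fintype.linearIndependent_iff.1 li (fun l => (x l : ℚ)) (by
      funext q
      have h1 : ∑ l, a (f l) q * x l = 0 := congrFun hx q
      have h2 : ∑ l, (a (f l) q : ℚ) * x l = 0 := by exact_mod_cast h1
      simpa [Finset.sum_apply, mul_comm] using h2) l
    exact_mod_cast this
  set D := (A * Aᵀ).det with hDd
  obtain ⟨n, hn⟩ : ∃ n : κ → ℤ, (A * Aᵀ) *ᵥ n = D • (A *ᵥ e) := ⟨_, mulVec_cramer _ _⟩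
  obtain ⟨y, hy⟩ : ∃ y : ι → ℤ, y = Aᵀ *ᵥ n - D • e := ⟨_, rfl⟩
  have y0 : A *ᵥ y = 0 := by rw [hy, mulVec_sub, mulVec_mulVec, hn, mulVec_smul, sub_self]
  have yq : ∀ q, y q = ∑ l, a (f l) q * n l - D * e q := fun q => by rw [hy]; rfl
  have y1 : ∀ z ∈ Submodule.span ℚ (Set.range ((fun i q => (a i q : ℚ)) ∘ f)),
      ∑ q, z q * (y q : ℚ) = 0 := by
    intro z hz
    induction hz using Submodule.span_induction with
    | mem z hz =>
      obtain ⟨l, rfl⟩ := hz
      have h1 : ∑ q, a (f l) q * y q = 0 := congrFun y0 l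
      have h2 : ∑ q, (a (f l) q : ℚ) * y q = 0 := by exact_mod_cast h1
      exact h2
    | zero => simp
    | add u v _ _ hu hv => simp [add_mul, sum_add_distrib, hu, hv]
    | smul r u _ hu => simp [mul_assoc, ← mul_sum, hu]
  have y2 : ∀ i, ∑ q, a i q * y q = 0 := fun i => by
    have := y1 (fun q => (a i q : ℚ)) (hsp ▸ Submodule.subset_span ⟨i, rfl⟩)
    exact_mod_cast this
  have y3 : ∑ q, e q * y q = 0 := by
    have : j * ∑ q, e q * y q = ∑ i, c i * ∑ q, a i q * y q := by
      simp only [mul_sum, ← mul_assoc, ← h, sum_mul]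
      exact sum_comm
    simp only [y2, mul_zero, sum_const_zero] at this
    exact (mul_eq_zero.1 this).resolve_left hj
  have key : ∀ w : ι → ℤ, ∑ q, y q * w q =
      ∑ l, n l * ∑ q, a (f l) q * w q - D * ∑ q, e q * w q := fun w => by
    simp only [yq, sub_mul, sum_sub_distrib, mul_sum, sum_mul, mul_assoc]
    rw [sum_comm]
    congr 1
    exact sum_congr rfl fun l _ => sum_congr rfl fun q _ => by ring
  have y4 : ∀ q, y q = 0 := fun q => by
    have := key y
    simp only [y2, y3, mul_zero, sum_const_zero, sub_zero] at this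
    exact mul_self_eq_zero.1
      ((sum_eq_zero_iff_of_nonneg fun q _ => mul_self_nonneg (y q)).1 this q (mem_univ q))
  refine ⟨D, hD, ?_, fun p w hw => ?_⟩
  · have := det_le (A := A * Aᵀ) (abv := AbsoluteValue.abs) (x := M) fun i l => hM (f i) (f l)
    rw [nsmul_eq_mul] at this
    refine this.trans (mul_le_mul (by exact_mod_cast Nat.factorial_le hc)
      (pow_le_pow_right₀ M1 hc) (by positivity) (by positivity))
  · have := key w
    simp only [y4, zero_mul, sum_const_zero] at this
    rw [← sub_eq_zero.1 this.symm]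
    exact dvd_sum fun l _ => (hw (f l)).mul_left _

end Pool.Agent.FS.RankDrop
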