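import Pool.Agent.FS.RankDrop.Lin
import Pool.Agent.Lib.MP_6aa000_nt.H77.Main

/-!
Fermat quotients give a linear condition modulo `p` on the exponents of a smooth value
`1 + x ^ 2 * y ^ 3`.
-/

set_option autoImplicit false

namespace Pool.Agent.FS.RankDrop

open Finset Filter

lemma expand_pow (p w : ℤ) (k : ℕ) : ∃ T : ℤ, (1 + p * w) ^ k = 1 + p * (k * w) + p ^ 2 * T := by
  induction k with
  | zero => exact ⟨0, by simp⟩
  | succ k ih =>
    obtain ⟨T, hT⟩ := ih
    exact ⟨T + k * w ^ 2 + p * w * T, by rw [pow_succ, hT]; push_cast; ring⟩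

lemma expand_prod {ι : Type} (p : ℤ) (w : ι → ℤ) (b : ι → ℕ) (S : Finset ι) :
    ∃ T : ℤ, ∏ q ∈ S, (1 + p * w q) ^ b q = 1 + p * ∑ q ∈ S, b q * w q + p ^ 2 * T := by
  classical
  induction S using Finset.induction_on with
  | empty => exact ⟨0, by simp⟩
  | insert q S hq ih =>
    obtain ⟨T, hT⟩ := ih
    obtain ⟨U, hU⟩ := expand_pow p (w q) (b q)
    rw [prod_insert hq, sum_insert hq, hT, hU]
    generalize ∑ q ∈ S, (b q : ℤ) * w q = Z
    exact ⟨T + U + (b q * w q + p * U) * (Z + p * T), by ring⟩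

lemma fermat {p q : ℕ} (hp : p.Prime) (h : ¬ p ∣ q) :
    (q : ℤ) ^ (p - 1) = 1 + p * (((q : ℤ) ^ (p - 1) - 1) / p) := by
  have h1 := Nat.ModEq.pow_totient ((Nat.Prime.coprime_iff_not_dvd hp).2 h).symm
  rw [Nat.totient_prime hp] at h1
  have h2 : (p : ℤ) ∣ (q : ℤ) ^ (p - 1) - 1 := by simpa using h1.symm.dvd
  rw [Int.mul_ediv_cancel' h2]
  ring

lemma rel {p u : ℕ} {S : Finset ℕ} (hp : p.Prime) (hu : 0 < u) (h0 : u.primeFactors ⊆ S)
    (h1 : ¬ p ∣ u) (h2 : ∀ q, p - 1 ∣ u.factorization q) {x y : ℤ} (h : 1 + x ^ 2 * y ^ 3 = u) :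
    (p : ℤ) ∣ ∑ q : S, (u.factorization q : ℤ) * ((((q : ℕ) : ℤ) ^ (p - 1) - 1) / p) := by
  choose b hb using h2
  set w : S → ℤ := fun q => (((q : ℕ) : ℤ) ^ (p - 1) - 1) / p with hw
  have e1 : u = ∏ q : S, (q : ℕ) ^ u.factorization q := by
    rw [prod_coe_sort S (fun q => q ^ u.factorization q)]
    conv_lhs => rw [← Nat.prod_factorization_pow_eq_self hu.ne']
    exact Finsupp.prod_of_support_subset _ h0 _ fun q _ => pow_zero q
  have e2 : (u : ℤ) = ∏ q : S, (1 + p * w q) ^ b q := by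
    rw [e1]
    push_cast
    refine prod_congr rfl fun q _ => ?_
    rcases Nat.eq_zero_or_pos (b q) with h0 | h0
    · rw [hb, h0]; simp
    · have : u.factorization q ≠ 0 := by
        have := hp.two_le
        rw [hb]
        exact Nat.mul_ne_zero (by omega) h0.ne'
      rw [hb, pow_mul, fermat hp fun k => h1 (k.trans (Nat.dvd_of_factorization_pos this))]
  obtain ⟨T, hT⟩ := expand_prod (p : ℤ) w (fun q : S => b q) univ
  have hpi : Prime (p : ℤ) := Nat.prime_iff_prime_int.1 hp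
  have h4 : x ^ 2 * y ^ 3 = p * (∑ q : S, (b q : ℤ) * w q + p * T) := by
    rw [e2, hT] at h
    linear_combination h
  have h5 : (p : ℤ) ^ 2 ∣ x ^ 2 * y ^ 3 := by
    rcases hpi.dvd_or_dvd (⟨_, h4⟩ : (p : ℤ) ∣ x ^ 2 * y ^ 3) with h6 | h6
    · exact (pow_dvd_pow_of_dvd (hpi.dvd_of_dvd_pow h6) 2).mul_right _
    · exact ((pow_dvd_pow_of_dvd (hpi.dvd_of_dvd_pow h6) 2).trans
        (pow_dvd_pow y (by norm_num))).mul_left _
  rw [h4, sq] at h5
  have h6 := (dvd_add_left (dvd_mul_right _ _)).1 ((mul_dvd_mul_iff_left hpi.ne_zero).1 h5)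
  have h7 : ∑ q : S, (u.factorization q : ℤ) * w q =
      ((p - 1 : ℕ) : ℤ) * ∑ q : S, (b q : ℤ) * w q := by
    rw [mul_sum]
    exact sum_congr rfl fun q _ => by rw [hb, Nat.cast_mul, mul_assoc]
  rw [h7]
  exact h6.mul_left _

lemma val {s : ℕ} {u : Fin s → ℕ} {c : Fin s → ℤ} {j : ℤ} (hu : ∀ i, 0 < u i)
    (h : ∏ i, (u i : ℚ) ^ c i = 2 ^ j) (q : ℕ) :
    ∑ i, c i * ((u i).factorization q : ℤ) = j * if q = 2 then 1 else 0 := by
  by_cases hq : q.Prime
  · have := Fact.mk hq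
    have ne : ∀ i, (u i : ℚ) ^ c i ≠ 0 := fun i => zpow_ne_zero _ (by exact_mod_cast (hu i).ne')
    have k : ∀ S : Finset (Fin s), padicValRat q (∏ i ∈ S, (u i : ℚ) ^ c i) =
        ∑ i ∈ S, c i * ((u i).factorization q : ℤ) := by
      intro S
      induction S using Finset.induction_on with
      | empty => simp
      | insert i S hi ih =>
        rw [prod_insert hi, sum_insert hi, padicValRat.mul (ne i) (prod_ne_zero_iff.2 fun i _ => ne i),
          ih, padicValRat.zpow, padicValRat.of_nat, Nat.factorization_def _ hq]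
    rw [← k, h, padicValRat.zpow]
    congr 1
    rw [show (2 : ℚ) = (2 : ℕ) by norm_num, padicValRat.of_nat]
    split_ifs with h2
    · subst h2; simp
    · have := Fact.mk Nat.prime_two
      rw [padicValNat_primes h2]; rfl
  · have : q ≠ 2 := fun h => hq (h ▸ Nat.prime_two)
    simp [Nat.factorization_eq_zero_of_not_prime _ hq, this]

lemma card_le {N : ℕ} (hN : N ≠ 0) : (N.primeFactors.card : ℝ) ≤ 2 * Real.log N := by
  have h1 : 2 ^ N.primeFactors.card ≤ N :=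
    (pow_card_le_prod _ (fun p => p) 2 fun p hp => (Nat.prime_of_mem_primeFactors hp).two_le).trans
      (Nat.le_of_dvd (Nat.pos_of_ne_zero hN) (Nat.prod_primeFactors_dvd N))
  have h2 : (2 : ℝ) ^ N.primeFactors.card ≤ N := by exact_mod_cast h1
  have h3 := Real.log_le_log (by positivity) h2
  rw [Real.log_pow] at h3
  nlinarith [Real.log_two_gt_d9, Nat.cast_nonneg (α := ℝ) N.primeFactors.card]

lemma fact_le {u q : ℕ} (hu : 0 < u) : (u.factorization q : ℝ) ≤ 2 * Real.log u := by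
  by_cases hq : q.Prime
  · have h1 : 2 ^ u.factorization q ≤ u :=
      (Nat.pow_le_pow_left hq.two_le _).trans (Nat.ordProj_le q hu.ne')
    have h2 : (2 : ℝ) ^ u.factorization q ≤ u := by exact_mod_cast h1
    have h3 := Real.log_le_log (by positivity) h2
    rw [Real.log_pow] at h3
    nlinarith [Real.log_two_gt_d9, Nat.cast_nonneg (α := ℝ) (u.factorization q)]
  · rw [Nat.factorization_eq_zero_of_not_prime _ hq]
    have := Real.log_natCast_nonneg u
    push_cast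
    linarith

theorem main : ∃ η : ℝ, 0 < η ∧ ∃ k₀ : ℕ, ∀ k : ℕ, k₀ ≤ k →
    ∀ (s : ℕ) (u : Fin s → ℕ) (c : Fin s → ℤ) (j : ℤ),
      (∀ i, 0 < u i) → (∀ i, ∃ x y : ℤ, 1 + x ^ 2 * y ^ 3 = u i) →
      (∀ i d, 1 ≤ d → d ≤ k → ∃ z : ℕ, u i = z ^ d) →
      (∀ i, Real.log (u i) ≤ Real.exp ((k : ℝ) ^ (1 + η))) →
      ((∏ i, u i).primeFactors.card : ℝ) ≤ (k : ℝ) ^ η →
      ∏ i, (u i : ℚ) ^ c i = 2 ^ j → j = 0 := by
  classical
  obtain ⟨η, η0, h⟩ := Pool.Agent.Lib.MP_6aa000_nt.H77.exists_prime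
  have hT : Tendsto (fun k : ℕ => (k : ℝ) ^ (η / 4)) atTop atTop :=
    (tendsto_rpow_atTop (by positivity)).comp tendsto_natCast_atTop_atTop
  obtain ⟨k₀, h⟩ := eventually_atTop.1 (h.and ((eventually_ge_atTop 1).and
    (hT.eventually_ge_atTop 68)))
  refine ⟨η / 4, by positivity, k₀, fun k hk s u c j u0 u1 u3 u4 u2 u5 => ?_⟩
  obtain ⟨h, k1, k2⟩ := h k hk
  by_contra hj
  have r1 : (1 : ℝ) ≤ k := by exact_mod_cast k1
  obtain ⟨κ, hκ⟩ : ∃ κ : ℝ, κ = (k : ℝ) ^ (1 + η / 4) := ⟨_, rfl⟩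
  obtain ⟨τ, hτ⟩ : ∃ τ : ℝ, τ = (k : ℝ) ^ (η / 4) := ⟨_, rfl⟩
  have κ1 : 1 ≤ κ := hκ ▸ Real.one_le_rpow r1 (by positivity)
  rw [← hκ] at u4
  rw [← hτ] at u2 k2
  have E1 : 1 ≤ Real.exp κ := Real.one_le_exp (by linarith)
  obtain ⟨B, B1, B2, B3⟩ : ∃ B : ℕ, 1 ≤ B ∧ 2 * Real.exp κ ≤ B ∧ (B : ℝ) ≤ 3 * Real.exp κ :=
    ⟨⌈2 * Real.exp κ⌉₊, Nat.ceil_pos.2 (by positivity), Nat.le_ceil _,
      by linarith [Nat.ceil_lt_add_one (a := 2 * Real.exp κ) (by positivity)]⟩
  have aB : ∀ i q, (u i).factorization q ≤ B := fun i q => by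
    have : ((u i).factorization q : ℝ) ≤ B := by linarith [fact_le (q := q) (u0 i), u4 i]
    exact_mod_cast this
  have U0 : ∏ i, u i ≠ 0 := prod_ne_zero_iff.2 fun i _ => (u0 i).ne'
  obtain ⟨S, S2, SU, r, hr, r2⟩ : ∃ S : Finset ℕ, 2 ∈ S ∧ (∏ i, u i).primeFactors ⊆ S ∧
      ∃ r : ℕ, S.card = r ∧ (r : ℝ) ≤ 2 * τ := by
    refine ⟨insert 2 (∏ i, u i).primeFactors, mem_insert_self _ _, subset_insert _ _, _, rfl, ?_⟩
    have : ((insert 2 (∏ i, u i).primeFactors).card : ℝ) ≤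
        ((∏ i, u i).primeFactors.card + 1 : ℕ) := by exact_mod_cast card_insert_le _ _
    push_cast at this
    linarith
  have r3 : 1 ≤ r := hr ▸ card_pos.2 ⟨2, S2⟩
  have cS : Fintype.card S = r := by rw [Fintype.card_coe, hr]
  obtain ⟨D, D0, D1, D2⟩ := small_mul (ι := S) (fun i q => ((u i).factorization q : ℤ))
    (fun q => if (q : ℕ) = 2 then 1 else 0) c j hj (fun q => val u0 u5 q) ((r * (B * B) : ℕ) : ℤ)
    (by exact_mod_cast Nat.mul_pos r3 (Nat.mul_pos B1 B1)) fun i l => by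
      rw [abs_of_nonneg (sum_nonneg fun q _ => by positivity)]
      have : ∑ q : S, (u i).factorization q * (u l).factorization q ≤ r * (B * B) := by
        have := sum_le_card_nsmul univ _ (B * B)
          fun (q : S) _ => Nat.mul_le_mul (aB i q) (aB l q)
        rwa [card_univ, cS, smul_eq_mul] at this
      exact_mod_cast this
  rw [cS] at D1
  have D4 := Int.natAbs_ne_zero.2 D0
  have D3 : D.natAbs ≤ r ^ r * (r * (B * B)) ^ r := by
    rw [← Int.natCast_natAbs] at D1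
    have : D.natAbs ≤ r.factorial * (r * (B * B)) ^ r := by exact_mod_cast D1
    exact this.trans (Nat.mul_le_mul_right _ (Nat.factorial_le_pow r))
  have rr : (1 : ℝ) ≤ r := by exact_mod_cast r3
  have hN : Real.log (D.natAbs : ℕ) ≤ r * (8 * r * κ) := by
    have BB : (1 : ℝ) ≤ B := by exact_mod_cast B1
    have a1 : ((D.natAbs : ℕ) : ℝ) ≤ r ^ r * (r * (B * B)) ^ r := by exact_mod_cast D3
    have a2 := Real.log_le_log (by exact_mod_cast Nat.pos_of_ne_zero D4) a1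
    rw [Real.log_mul (by positivity) (by positivity), Real.log_pow, Real.log_pow,
      Real.log_mul (by positivity) (by positivity),
      Real.log_mul (by positivity) (by positivity), ← mul_add] at a2
    have a4 := Real.log_le_sub_one_of_pos (show (0 : ℝ) < r by linarith)
    have a5 : Real.log B ≤ 3 * κ := by
      have := Real.log_le_log (by positivity) B3
      rw [Real.log_mul (by norm_num) (by positivity), Real.log_exp] at this
      linarith [Real.log_le_sub_one_of_pos (show (0 : ℝ) < 3 by norm_num)]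
    exact a2.trans (mul_le_mul_of_nonneg_left (by nlinarith) (by positivity))
  obtain ⟨p, p1, p2, p3, -, p5, p6⟩ := h ((Icc 1 k).lcm id) _ (mul_ne_zero D4 U0)
    (fun d d1 d2 => dvd_lcm (f := id) (mem_Icc.2 ⟨d1, d2⟩)) (by
      have b1 : (((D.natAbs * ∏ i, u i).primeFactors.filter (· ≤ k ^ 2)).card : ℝ) ≤
          (D.natAbs.primeFactors.card + r : ℕ) := by
        rw [Nat.primeFactors_mul D4 U0, ← hr]
        exact_mod_cast (card_filter_le _ _).trans
          ((card_union_le _ _).trans (Nat.add_le_add_left (card_le_card SU) _))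
      have b2 : (k : ℝ) ^ (1 + η) = τ * (τ * τ * κ) := by
        rw [hκ, hτ, ← Real.rpow_add (by linarith), ← Real.rpow_add (by linarith),
          ← Real.rpow_add (by linarith)]
        congr 1; ring
      have b3 : (r : ℝ) * r * κ ≤ 2 * τ * (2 * τ) * κ := by gcongr
      have b4 := mul_le_mul_of_nonneg_right k2 (by positivity : 0 ≤ τ * τ * κ)
      have b5 : (r : ℝ) * 1 * 1 ≤ r * r * κ := by gcongr
      push_cast at b1
      linarith [card_le D4])
  have h1 := D2 p (fun q => (((q : ℕ) : ℤ) ^ (p - 1) - 1) / p) fun i => by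
    obtain ⟨x, y, hxy⟩ := u1 i
    have hd := dvd_prod_of_mem u (mem_univ i)
    refine rel p1 (u0 i) ((Nat.primeFactors_mono hd U0).trans SU)
      (fun g => p6 ((g.trans hd).mul_left _))
      (fun q => p5.trans (Finset.lcm_dvd fun d hd => ?_)) hxy
    obtain ⟨z, hz⟩ := u3 i d (mem_Icc.1 hd).1 (mem_Icc.1 hd).2
    rw [hz, Nat.factorization_pow]
    exact ⟨_, rfl⟩
  rw [sum_eq_single (⟨2, S2⟩ : S) (fun q _ hq => by
    rw [if_neg fun h => hq (Subtype.ext h), zero_mul]) (by simp)] at h1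
  have hpi : Prime (p : ℤ) := Nat.prime_iff_prime_int.1 p1
  rcases hpi.dvd_or_dvd h1 with h2 | h2
  · exact p6 ((Int.natCast_dvd.1 h2).mul_right _)
  · have h3 := fermat (q := 2) p1 fun h => p2 ((Nat.prime_dvd_prime_iff_eq p1 Nat.prime_two).1 h)
    simp only [if_true, one_mul] at h2
    obtain ⟨v, hv⟩ := h2
    rw [hv] at h3
    apply p3
    have h4 : ((p ^ 2 : ℕ) : ℤ) ∣ ((2 ^ (p - 1) - 1 : ℕ) : ℤ) := by
      rw [Nat.cast_sub Nat.one_le_two_pow]
      exact ⟨v, by push_cast at h3 ⊢; linear_combination h3⟩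
    exact_mod_cast h4

end Pool.Agent.FS.RankDrop
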